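import Pool.Agent.R489.HC.Stm

set_option autoImplicit false

namespace Pool.Agent.R127.HC

open Pool.Agent.R489.HB Pool.Agent.R489.HC

variable {V : Type} [DecidableEq V] {G : SimpleGraph V}

lemma rep_u (P : Pt G) (h : P.u ≠ P.w) : rep P P.u = 1 - P.s := by
  unfold rep
  rw [Pi.add_apply, Pi.single_eq_same, Pi.single_eq_of_ne h, add_zero]

lemma rep_w (P : Pt G) (h : P.u ≠ P.w) : rep P P.w = P.s := by
  unfold rep
  rw [Pi.add_apply, Pi.single_eq_same, Pi.single_eq_of_ne h.symm, zero_add]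

lemma rep_deg (P : Pt G) (h : P.u = P.w) (h0 : P.s = 0) : rep P P.u = 1 := by
  unfold rep
  rw [Pi.add_apply, Pi.single_eq_same, ← h, Pi.single_eq_same, h0]
  norm_num

lemma end_cases (P : Pt G) (x : V) (a : ℝ) (h : P.End x a) :
    (0 < rep P x ∧ a = 1 - rep P x) ∨ (a = 1 ∧ ∃ x', G.Adj x' x ∧ rep P x' = 1) := by
  rcases P.h with ⟨h1, h2⟩ | ⟨h1, h2, h3⟩
  · rcases h with ⟨rfl, rfl⟩ | ⟨hne, -, -⟩
    · left
      rw [rep_deg P h1 h2, h2]
      norm_num
    · exact absurd h1 hne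
  · have hne : P.u ≠ P.w := h1.ne
    rcases h with ⟨rfl, rfl⟩ | ⟨-, rfl, rfl⟩
    · rw [rep_u P hne]
      rcases lt_or_eq_of_le h3 with h4 | h4
      · left
        constructor
        · linarith
        · ring
      · right
        refine ⟨h4, P.w, h1.symm, ?_⟩
        rw [rep_w P hne, h4]
    · rw [rep_w P hne]
      rcases lt_or_eq_of_le h2 with h4 | h4
      · left
        exact ⟨h4, rfl⟩
      · right
        refine ⟨by rw [← h4]; ring, P.u, h1, ?_⟩
        rw [rep_u P hne, ← h4]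
        ring

lemma end_walk (P : Pt G) (x : V) (a : ℝ) (h : P.End x a) :
    ∃ (x' : V) (k : G.Walk x' x), 0 < rep P x' ∧ (1 - rep P x') + k.length = a := by
  rcases end_cases P x a h with ⟨h1, h2⟩ | ⟨h1, x', h2, h3⟩
  · refine ⟨x, SimpleGraph.Walk.nil, h1, ?_⟩
    rw [h2]
    simp
  · refine ⟨x', SimpleGraph.Walk.cons h2 SimpleGraph.Walk.nil, by rw [h3]; norm_num, ?_⟩
    rw [h3, h1]
    simp

theorem REP1 : S_REP1 := by
  intro V _ G P Q r h
  rcases h with ⟨hu, hw, h⟩ | ⟨hadj, hu, hw, h⟩ | ⟨x, y, a, b, k, hx, hy, h⟩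
  · rcases P.h with ⟨h1, h2⟩ | ⟨h1, h2, h3⟩
    · have hq : Q.u = Q.w := by rw [← hu, ← hw, h1]
      have hq0 : Q.s = 0 := by
        rcases Q.h with ⟨_, h5⟩ | ⟨h5, _, _⟩
        · exact h5
        · exact absurd hq h5.ne
      refine ⟨0, Or.inr ⟨P.u, P.u, SimpleGraph.Walk.nil, ?_, ?_, ?_⟩, ?_⟩
      · rw [rep_deg P h1 h2]; norm_num
      · rw [hu, rep_deg Q hq hq0]; norm_num
      · rw [rep_deg P h1 h2, hu, rep_deg Q hq hq0]
        simp
      · exact (abs_nonneg _).trans h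
    · have hne : P.u ≠ P.w := h1.ne
      have hneQ : Q.u ≠ Q.w := by rw [← hu, ← hw]; exact hne
      refine ⟨|P.s - Q.s|, Or.inl ⟨P.u, P.w, h1, ?_, ?_, ?_⟩, h⟩
      · rw [rep_u P hne, rep_w P hne]; ring
      · rw [hu, hw, rep_u Q hneQ, rep_w Q hneQ]; ring
      · rw [rep_u P hne, hu, rep_u Q hneQ, abs_sub_comm]
        congr 1
        ring
  · have hne : P.u ≠ P.w := hadj.ne
    have hneQ : Q.u ≠ Q.w := by rw [← hu, ← hw]; exact hne.symm
    refine ⟨|P.s - (1 - Q.s)|, Or.inl ⟨P.u, P.w, hadj, ?_, ?_, ?_⟩, h⟩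
    · rw [rep_u P hne, rep_w P hne]; ring
    · rw [hu, hw, rep_u Q hneQ, rep_w Q hneQ]; ring
    · rw [rep_u P hne, hu, rep_w Q hneQ, abs_sub_comm]
      congr 1
      ring
  · obtain ⟨x', k1, h1, h2⟩ := end_walk P x a hx
    obtain ⟨y', k2, h3, h4⟩ := end_walk Q y b hy
    refine ⟨a + k.length + b, Or.inr ⟨x', y', (k1.append k).append k2.reverse, h1, h3, ?_⟩, h⟩
    rw [SimpleGraph.Walk.length_append, SimpleGraph.Walk.length_append,
      SimpleGraph.Walk.length_reverse, ← h2, ← h4]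
    push_cast
    ring

end Pool.Agent.R127.HC
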